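import Pool.Agent.U436.TD.Main

/-!
# The determinants of the cohomology of the abelian coverings of the line

Let `k` be an algebraically closed field, `d ≥ 1`, `p = (p 0, …, p (d+1))` different points of the line, `n s ≥ 1`
(`s < r`) and `A s i` natural numbers. Let `C_p` be the covering of the projective line given by

  `y s ^ n s = ∏ i, L (p i) ^ A s i`

(`L` a nonzero binary form of degree one, that is, a polynomial of degree at most one; all abelian coverings of the
line branched at most at the `p i` are given in this way, up to birational equivalence), with the weights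
`L ↦ κ ^ E0 L`, `y s ↦ κ ^ E s y s`, `n s E s = E0 ∑ i, A s i`. Let `Y` be the variety of dimension `d`

  `u ≠ 0`, `∑ i, u i = 0`, `y s ^ n s = ∏ i, u i ^ A s i`

(weights `E0`, `E s`), which does NOT depend on the points. We show that the map

  `(L l, y l) ↦ (u i = ∏ l, L l (p i) / ∏_{j ≠ i} (p i - p j), y s = c s ∏ l, y l s)`

maps `C_p ^ d` onto `Y` (for all constants `c s` with `c s ^ n s = ∏ (∏_{j ≠ i} (p i - p j)) ^ (- A s i)`), and that two
points have the same image if and only if they differ by a permutation of the factors and an element of the group of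
the `ζ l s` with `ζ l s ^ n s = 1` and `∏ l, ζ l s = τ ^ E s`, `τ ^ E0 = 1`: `C_p ^ d / G = Y` for all `p`.

Relation to the Tate conjecture (not formalised). Let `χ` be a character of the group of the covering which is
ramified at all `d + 2` points. Then `H¹ (C_p) χ` has dimension `d`, and its determinant, a space of classes on the
Jacobian, is `H ^ d (Y) χ`. So `det H¹ (C_p) χ` and `det H¹ (C_q) χ` are isomorphic by algebraic correspondences for all
`p`, `q` defined over the algebraic numbers, and isomorphic with a piece of the cohomology of the Fermat variety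
`∑ x i ^ n = 0` of dimension `d` (`u i = x i ^ n`). All Tate classes on products of Jacobians `J (C_p)`, for any
points, groups and characters, which are products of determinants (for example the classes in
`det H¹ (C_p) χ ⊗ det H¹ (C_q) χ ^ ∨` on `J (C_p) × J (C_q)`, for all `p`, `q`) are algebraic if the corresponding classes
on Fermat varieties are; this is known for prime exponents in all dimensions.
-/

set_option autoImplicit false

namespace Pool.Agent.Results.MP_90d181_ag.DeterminantsOfCoverings

open Pool.Agent.U436 Pool.Agent.U436.TD Polynomial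

theorem result (k : Type) [Field k] [IsAlgClosed k] (d r : ℕ) (hd : 1 ≤ d) (n : Fin r → ℕ) (hn : ∀ s, n s ≠ 0)
    (A : Fin r → Fin (d + 2) → ℕ) (E0 : ℕ) (hE0 : E0 ≠ 0) (E : Fin r → ℕ)
    (hE : ∀ s, n s * E s = E0 * ∑ i, A s i) (p : Fin (d + 2) → k) (hp : Function.Injective p) :
    (∃ c : Fin r → k, ∀ s, c s ^ n s = ∏ i, HP.wt p i ^ A s i) ∧
    ∀ c : Fin r → k, (∀ s, c s ^ n s = ∏ i, HP.wt p i ^ A s i) →
      (∀ x : Fin d → k[X] × (Fin r → k), (∀ l, x l ∈ curve p A n) → toTarget p c x ∈ target A n) ∧
      (∀ z ∈ target A n, ∃ x : Fin d → k[X] × (Fin r → k), (∀ l, x l ∈ curve p A n) ∧ toTarget p c x = z) ∧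
      (∀ x x' : Fin d → k[X] × (Fin r → k), (∀ l, x l ∈ curve p A n) → (∀ l, x' l ∈ curve p A n) →
        (SamePoint E0 E (toTarget p c x) (toTarget p c x') ↔
          ∃ (σ : Equiv.Perm (Fin d)) (ζ : Fin d → Fin r → k) (τ : k) (κ : Fin d → k),
            (∀ j s, ζ j s ^ n s = 1) ∧ τ ^ E0 = 1 ∧ (∀ s, ∏ j, ζ j s = τ ^ E s) ∧ (∀ j, κ j ≠ 0) ∧
              ∀ j, (x' j).1 = C (κ j ^ E0) * (x (σ j)).1 ∧
                ∀ s, (x' j).2 s = κ j ^ E s * (ζ j s * (x (σ j)).2 s))) := by
  constructor
  · choose c hc using fun s => IsAlgClosed.exists_pow_nat_eq (∏ i, HP.wt p i ^ A s i)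
      (Nat.pos_of_ne_zero (hn s))
    exact ⟨c, hc⟩
  · intro c hc
    have hc0 : ∀ s, c s ≠ 0 := by
      intro s h0
      have h1 := hc s
      rw [h0, zero_pow (hn s)] at h1
      exact Finset.prod_ne_zero_iff.mpr (fun i _ => pow_ne_zero _ (HP.wt_ne_zero hp i)) h1.symm
    exact ⟨fun x hx => toTarget_mem hp hc hc0 hx, fun z hz => toTarget_surj hd hn hp hc hc0 hz,
      fun x x' hx hx' => toTarget_same_iff hn hp hc0 hE0 hE hx hx'⟩

end Pool.Agent.Results.MP_90d181_ag.DeterminantsOfCoverings
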