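import Pool.Agent.U226.GT.Idx

/-!
# The exact proportion of the algebraic classes among the Tate classes on the abelian varieties
`X ^ n × Z`

Let `X` and `Z` be abelian varieties over a number field `F` (not necessarily related to each other), or
any smooth projective varieties over a field `F`. Let `t (Y)` be the dimension of the space of the Tate
classes, in all degrees and over all finite extensions of `F`, on `Y`, `a (Y)` the dimension of the
subspace spanned by the classes of algebraic cycles, and `ρ (Y)` the rank of the group of cycles modulo
numerical equivalence. So `ρ (Y) ≤ a (Y) ≤ t (Y)`; for abelian varieties over number fields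
`ρ (Y) = a (Y)` (Lieberman).

*Theorem.* (1) For ALL `X` and `Z`, without any hypothesis, the quotients `t (X ^ n × Z) / ρ (X ^ n × Z)`
have a limit in `[1, ∞]`, and the limit is infinite or a rational number `N / d` with a denominator
`d ≤ b(Z)`, the sum of the Betti numbers of `Z`. The limit is `1` if and only if the Tate conjecture holds
for all `X ^ n × Z` (and homological and numerical equivalence coincide on them). So, if the Tate
conjecture fails for one of the varieties `X ^ n × Z`, then the limit is at least `1 + 1 / b(Z)`: a
positive proportion of the Tate classes, at least `1 / (b(Z) + 1)` in the limit, is not explained by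
algebraic cycles. If the limit is finite, homological and numerical equivalence coincide on all powers
of `X`, and `ρ (X ^ n × Z) / ρ (X ^ n)` tends to the denominator `d`.

(2) For abelian varieties over number fields the limit is known exactly. Let

  `V_Tate ⊂ H(Z)`: the span of the images `c_* (a)`, `c` a Tate class on some `X ^ m × Z`, `a` any class
     on `X ^ m`; this is the largest subspace of `H(Z)` which comes from the powers of `X` as a Galois
     representation (up to Tate twists and finite extensions of `F`);
  `V_alg ⊂ V_Tate`: the span of the images `c_* (a)`, `c` the class of an algebraic cycle on some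
     `X ^ m × Z`.

Then `V_alg` is not zero, and there is an `I` in `{1, 2, 3, …, ∞}`, which depends only on `X`, such that

* `t (X ^ n) / a (X ^ n)` tends to `I`, and `I = 1` if and only if the Tate conjecture holds for all
  powers of `X`;
* `t (X ^ n × Z) / a (X ^ n × Z)` tends to `I * dim V_Tate / dim V_alg`;
* the Tate conjecture holds for all `X ^ n × Z` if and only if this limit is `1`, that is, if and only
  if `I = 1` and `V_alg = V_Tate`.

In the Lean statement `𝒱`, `ops` is a class of varieties over the algebraic closure `k` of `F` which is
closed under products, with algebraic cycles (here: the abelian varieties), `W` the `ℓ`-adic cohomology,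
`Γ` the Galois group of `F`, `G` its action (`GaloisAction`, the formal properties of the Galois action);
`pw X n` is the product of `n + 1` copies of `X`. Part (1) has no further hypothesis. The two hypotheses
of part (2), semisimplicity of the Galois representations (Faltings) and `hom = num` (Lieberman), are
known theorems for abelian varieties over number fields. (Since the action is continuous, the
subgroups of finite index in the definitions can be replaced by their closures, which are open.)

The proof. Both the Tate classes and the algebraic classes are closed under products, pull-backs and
push-forwards, and in part (2) the intersection form is nondegenerate on both (for the Tate classes by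
semisimplicity). The correspondences from `X ^ n` to `Z` in such a system are a module over the
algebra of the correspondences from `X ^ n` to itself, and their number is asymptotically
`dim V` times the number of the classes on `X ^ n` (the file `U282/PL/Exact`). Part (1) is the
theorem `rational_index` of the file `U226/RG/RatFin` for the system of the Tate classes.
-/

set_option autoImplicit false

universe u v

namespace Pool.Agent.Results.MP_90d181_ag.ExactIndex

open Pool.Agent.H914 Pool.Agent.H914.VarClass Pool.Agent.H914.VarClass.Obj Pool.Agent.U226.GT
open Pool.Agent.Y133.Half (pw)

/-- **The exact proportion of the algebraic classes among the Tate classes on `X ^ n × Z`.** -/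
theorem result {k : Type u} [Field k] {𝒱 : VarClass k} {ops : CycleOps 𝒱}
    {W : WeilCohomology.{u, v} ops} {Γ : Type} [Group Γ] (G : GaloisAction W Γ) (X Z : 𝒱.Obj)
    (hX : Nontrivial (W.H X)) (hZ : Nontrivial (W.H Z)) :
    (∃ (N : ℕ∞) (d : ℕ), 1 ≤ d ∧ d ≤ bettiSum W Z ∧ (d : ℕ∞) ≤ N ∧
      QuotientsTendTo (fun n => tateNumber G ((pw X n).prod Z))
        (fun n => numRank ops ((pw X n).prod Z)) N d ∧
      (N = d ↔ ∀ n, TateConjecture G ((pw X n).prod Z) ∧ HomEqNum W ((pw X n).prod Z)) ∧
      (N ≠ ⊤ → (∀ n, HomEqNum W (pw X n)) ∧
        QuotientsTendTo (fun n => numRank ops ((pw X n).prod Z)) (fun n => numRank ops (pw X n))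
          d 1)) ∧
    ((∀ (Y : 𝒱.Obj) (j : ℕ), Semisimple G Y (2 * j)) → (∀ Y : 𝒱.Obj, HomEqNum W Y) →
      0 < algPart W X Z ∧ algPart W X Z ≤ tatePart G X Z ∧
      ∃ I : ℕ∞, 1 ≤ I ∧
        QuotientsTendTo (fun n => tateNumber G (pw X n)) (fun n => algNumber W (pw X n)) I 1 ∧
        (I = 1 ↔ ∀ n, TateConjecture G (pw X n)) ∧
        QuotientsTendTo (fun n => tateNumber G ((pw X n).prod Z))
          (fun n => algNumber W ((pw X n).prod Z)) (I * tatePart G X Z) (algPart W X Z) ∧
        (I * tatePart G X Z = algPart W X Z ↔ ∀ n, TateConjecture G ((pw X n).prod Z))) :=
  ⟨rational G X Z hX hZ, fun hss hnum => index G hss hnum X Z hX hZ⟩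

end Pool.Agent.Results.MP_90d181_ag.ExactIndex
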