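import Pool.Agent.U270.FT14.Jac14

/-!
# The Tate conjecture for abelian varieties of Fermat type over number fields, from one Frobenius

Let `J` be the Jacobian of the Fermat curve `x ^ m + y ^ m + z ^ m = 0`. The space `H^1(J)` is the sum of
lines `V(x)`, `x = (a, b, c)` a triple of nonzero residues modulo `m` with sum zero (`CurveLine`), on
which the automorphisms of the curve act through `x`, and at a place of degree one above a prime number
`p` congruent to 1 modulo `m` the Frobenius acts on `V(x)` by the Jacobi sum `J(θ ^ a, θ ^ b)` over the
field with `p` elements, up to a root of unity (Weil); `θ` is a character of order `m`. Let `X` be an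
abelian variety over a number field `k` which over an algebraic closure is isogenous to a product of
factors of Jacobians of Fermat curves of degree `m`, with any multiplicities (every product of
abelian varieties with complex multiplication by cyclotomic fields, of types given by Jacobi sums). A
class of `H^(2 i)(X)(i)` fixed by an open subgroup of the Galois group is a combination of products of
`2 i` eigenvectors in lines `V(x_1), ..., V(x_(2 i))` such that, at every place as above, the product of
the Jacobi sums is `p ^ i` times a root of unity. Such a product is, by an algebraic correspondence, the
line of the union of the triples in the cohomology of the Fermat variety of degree `m` and dimension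
`6 i - 2` (Shioda).

The theorem: for every `m` there is one positive `l` such that for every SINGLE prime number `p ≡ 1`
modulo `m` and every family of `2 i` triples for which a power of the product of the `2 i` Jacobi sums
over the field with `p` elements is a power of `p ^ i`, the character `l s`, `s` the union of the triples,
is generated in degree `l m` by characters with algebraic lines (see below), provided that
* every prime factor of `m` congruent to 1 modulo 4 sees only squares, or `m` has at most three odd
  prime factors, at most two if `4 ∣ m`, and every prime factor congruent to 1 modulo 4 sees only squares
  or is 5, 13 or 17, for instance `m ≤ 147` different from 87, 116 and 123; then the Tate conjecture holds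
  for `X` in all codimensions;
* or `m` is ANY odd number and `i ≤ 2`: for all odd degrees the Tate conjecture holds for `X` in
  codimension two, whatever the dimension of `X` is.
By duality it also holds in codimension `dim X - 2`. The hypothesis is only used at one prime: the
theorem says that already a class on which a power of ONE Frobenius (at a place of degree one above a
prime `p ≡ 1` modulo `m`) acts trivially is algebraic, so that the reduction of `X` modulo this place has
no other Tate classes than the reductions of algebraic classes of `X`.

The families of characters with algebraic lines are: the pairs `{a, -a}`, and unions (Shioda, Katsura);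
removing a pair; the standard characters (Aoki, Shioda); the Hodge characters with four entries
(Lefschetz) and the curve products (see `MP_e12fcd_ag.FermatFourfolds`); the modular characters (see
`MP_802513_ag.FermatFactorsOdd`, which is the analogue of this result for the Hodge conjecture, for the
reason why their lines are algebraic). (The geometric facts just described are not formalised.)

The combinatorial theorems are `Pool.Agent.N993.mainT` of the starting library (first item) and the new
theorem `Pool.Agent.U270.FT14.main_fourteen` on the Hodge characters with at most fourteen entries of
arbitrary odd degree (see `MP_e12fcd_ag.FermatOddDegreeDimTwelve`); that the products of Jacobi sums have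
the absolute values given by Stickelberger's theorem is `Pool.Agent.N214.HB.isTate_of_gauss`.
-/

set_option autoImplicit false

namespace Pool.Agent.Results.MP_90d181_ag.FermatTypeOneFrobenius

open Pool.Agent.H916R2 Pool.Agent.N992 Pool.Agent.N993

theorem result (m : ℕ) [NeZero m] :
    ∃ l : ℕ, ∃ _ : NeZero (l * m), ((∀ p : ℕ, p.Prime → p ∣ m → p % 4 ≠ 1) → l = 1) ∧
      ∀ (p : ℕ) [Fact p.Prime], m ∣ p - 1 →
      ∀ (θ : MulChar (ZMod p) ℂ), orderOf θ = m →
      ∀ L : Multiset (ZMod m × ZMod m × ZMod m), (∀ x ∈ L, CurveLine m x) →
      ∀ i : ℕ, 0 < i → Multiset.card L = 2 * i →
      (MutualSquares m ∨ ThreePrimes m ∨ (m ≤ 147 ∧ m ≠ 87 ∧ m ≠ 116 ∧ m ≠ 123) ∨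
        (Odd m ∧ i ≤ 2)) →
      ∀ e : ℕ, 0 < e →
      ((L.map fun x => jacobiSum (θ ^ x.1.val) (θ ^ x.2.1.val)).prod) ^ e = ((p : ℂ) ^ i) ^ e →
      Generated (l * m) (FourBase (l * m))
        ((L.bind fun x => {x.1, x.2.1, x.2.2}).map
          fun a => ((l * a.val : ℕ) : ZMod (l * m))) := by
  obtain ⟨l, hl, h1, h2⟩ := Pool.Agent.U270.FT14.generated_of_jacobi m
  refine ⟨l, hl, h1, fun p _ hmp θ hθ L hC i hi hL hcase e he h => ?_⟩
  exact h2 (ZMod p) p hmp θ hθ L hC i hi hL hcase e he (by rw [ZMod.card]; exact h)

end Pool.Agent.Results.MP_90d181_ag.FermatTypeOneFrobenius
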