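import Pool.Agent.U173.GS.Main

/-!
# The Tate conjecture over number fields: varieties without supersingular parts

Let `k` be a number field (the formal theorem is for all fields), `𝒱` a class of smooth projective
varieties over `k` which is closed under products (for instance the abelian varieties), `C` their Chow
groups with rational coefficients, `H` a Weil cohomology theory with an algebraically closed field of
coefficients (`ℓ`-adic cohomology, with coefficients extended to the algebraic closure of `ℚ_ℓ`), with the
operation `ρ` of the Galois group `G`, which acts on the classes of divisors through the character `χ`
(framework of the starting library `N166/TT`; only formal properties are used, `IsArithmetic`). A *Tate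
class* of codimension `n` on `X` is an element of `H^{2n}(X)` on which `G` acts through `χ ^ n`, that is,
an invariant in `H^{2n}(X)(n)`; the Tate conjecture for `X` in codimension `n` says that these classes are
linear combinations of classes of algebraic cycles (`IsSpanned`). To have all classes which are fixed by
open subgroups and all cycles over the algebraic closure one replaces `k` by a finite extension.

Let `v` be a place of `k` with residue field of `p ^ m` elements, `σ` a geometric Frobenius element,
`χ σ = p ^ m`, and fix a place `ι` above `p` of the field `ℚ̄` of the algebraic numbers. If `X` has good
reduction at `v` then `σ` acts on `H(X)` as the Frobenius on the cohomology of the reduction. A *slope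
field* of `X` at `v` is a subfield `M` of `ℚ̄` such that the automorphisms of `ℚ̄` over `M` do not change
the absolute values at `ι` of the conjugates of the eigenvalues of `σ` on `H(X)` (`HasSlopeField`; the
smallest one is the field of definition of the slope cocharacter of the Frobenius torus at `v`). A
subspace of `H(X)` is *supersingular* at `v` if some power of each eigenvalue of `σ` on it is a power of
`p`.

Let `P` be a set of places. The variety `X` is *good* for `P` (`IsGood`), with slope fields `L v`, `v ∈ P`,
if `H(X)` is the direct sum of the span of the classes of algebraic cycles and a subspace `T` stable under
`G` such that the eigenvalues of the Frobenius elements at the places `v ∈ P` on `T` are Weil numbers with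
slope field `L v`, and if **no nonzero subspace of `T` stable under the whole group `G` is supersingular at
all places `v ∈ P`**. It is allowed that `T` contains many supersingular eigenvectors of each of these
Frobenius elements, and even that the reduction at `v` has many more algebraic cycles than `X`. Examples,
with `P` the set of one single place `v` of good reduction (after a finite extension of `k`):
* **all powers** `E ^ n` of an elliptic curve `E` without complex multiplication, with ordinary reduction
  at `v`;
* **all powers** `A ^ n` of an abelian variety `A` of dimension `g` whose `ℓ`-adic monodromy group is
  `GSp_{2g}` (by Serre this is so if the endomorphism ring over the algebraic closure is `ℤ` and `g` is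
  odd, or `2` or `6`), if the reduction at `v` is not supersingular: the invariants of `Sp_{2g}` in
  `H(A ^ n)` are generated by divisor classes, and the Frobenius torus at `v` is not in the kernel of any
  of the other irreducible constituents;
* K3 surfaces whose reduction at `v` is not supersingular, whatever the Picard number of the reduction is.
With several places in `P`, one may also have representations which are sums, one of them supersingular
at `v` and the other at `v'`, for instance products of powers of elliptic curves, each of which is
ordinary at one of the places.

**Theorem.** Let `X i` (`i` in the list `l`) be varieties over `k`, each of them good for a set `P i` of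
places, which may depend on `i`, with slope fields `L i v` which contain totally real fields `E i v`. Let
`Y j` (`j` in the list `l'`) and `Z` be **arbitrary** varieties over `k`. Suppose that for each `i` in `l`
and each `v` in `P i`

* the later `X j`, the `Y j` and `Z` have **each of them** at the place `v` a slope field which contains
  `E i v` and meets `L i v` in a totally real field (and the `X j`, `Y j` are pure at `v`, the theorem of
  Deligne, if they have good reduction there), and
* `L i v` is normal over `E i v`, unless `X i` is the last factor but `Z`.

Nothing is assumed on the composita of the slope fields, on the reductions at other places, and on the
cycles on the `Y j` and `Z`. Let `U = ∏ Y j × Z` and `V = ∏ X i × U`, `e = ∑ dim X i`. Then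

1. the Tate conjecture for `V` in codimension `n` is equivalent to the Tate conjecture for `U` in the
   codimensions `m` with `n - e ≤ m ≤ n`;
2. the equality of the rank of the group of cycles modulo homological equivalence and of the dimension
   of the space of Tate classes, in all codimensions, holds for `V` if and only if it holds for `U`;
3. there are finitely many algebraic cycles `D_a` on the first factor `X i` such that, modulo
   homological equivalence, the cycles on `V` are in a unique way the sums of `D_a × z_a` with cycles
   `z_a` on the product of the other factors, and the Tate classes on `V` are in a unique way the sums of
   the `cl (D_a) × h_a` with Tate classes `h_a` on the product of the other factors.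

For example, let `A` be an abelian variety over `k` with monodromy group `GSp_{2g}`, and `Y` an **arbitrary**
abelian variety over `k`. If there is **one place** `v` of good reduction of both at which `A` is not
supersingular, and such that the slope fields of `A` and `Y` at `v` meet in a totally real field (for
instance: **`Y` is supersingular at `v`**, the slope field is then `ℚ`), then the Tate conjecture for
`A ^ n × Y`, in all codimensions and for all `n`, is equivalent to the one for `Y`.

The proof. The new point is a lemma of representation theory (`U173/GS/Lin`): let `G` act on `A ⊗ B`
through the tensor product of two actions, and let `w` in `A ⊗ B` be semi-invariant, that is, `G` acts on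
`w` through scalars. Then the smallest subspace `W` of `A` with `w ∈ W ⊗ B` is stable under `G`, and for each
`σ` in `G` every eigenvalue `α` of `σ` on `W` satisfies `α β = c` with an eigenvalue `β` of `σ` on `B`, where
`σ w = c w`. Let now `w` be the component of a Tate class on `X i × V'` in `T ⊗ H(V')`. For `v` in `P i` and
each eigenvalue `α` of the Frobenius element at `v` on `W` we get `α ∏ y_j β = p ^ (m n)` with eigenvalues
`y_j`, `β` on the cohomology of the other factors. By the result on numbers of `U173/OP/Star`, which needs
only the condition on the pairs of slope fields, `α` is supersingular. So `W` is a subspace of `T` stable
under `G` which is supersingular at all places in `P i`, hence zero. The rest is as in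
`MP_7b53ad_ag.SlopeFieldsAtOnePlace`.

Relation to that result, also mine: there each factor has one place, and the complement of the algebraic
classes in the cohomology, stable under one Frobenius element, must have **no supersingular eigenvalue at
all**. So it applies neither to the powers `E ^ n`, `A ^ n` with `n ≥ 2` above, nor to K3 surfaces whose
Picard number jumps at `v` (in even rank it does at every place by Tate and Charles); the subspaces
stable under the whole group, the sets of places and the lemma on semi-invariants are new here.
-/

set_option autoImplicit false

open CategoryTheory AlgebraicGeometry

namespace Pool.Agent.Results.MP_90d181_ag.NoSupersingularParts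

open Pool.Agent.H914 Pool.Agent.H914.VarClass Pool.Agent.W492.BB Pool.Agent.N166.TT
  Pool.Agent.U231.FR.Base
open Pool.Agent.U173.OP (Place IsArithmetic IsDetermined)
open Pool.Agent.U173.GS

/-- **The Tate conjecture for products with varieties whose Galois representation has no supersingular
parts.** -/
theorem result {k : Type} [Field k] {𝒱 : VarClass k} (C : TheoryData.{0, 0, 0} 𝒱 ℚ) [IsChow C]
    {K : Type} [Field K] [IsAlgClosed K] [CharZero K] (H : WeilTheoryData.{0, 0, 0} C K) [IsWeil H]
    {G : Type} (ρ : Operations H G) (h : IsArithmetic ρ) {I I' : Type} (P : I → Set (Place G))
    (E L : I → Place G → IntermediateField ℚ (AlgebraicClosure ℚ)) (X : I → 𝒱.Obj)
    (Y : I' → 𝒱.Obj) (Z : 𝒱.Obj) (l : List I) (l' : List I')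
    (hsys : IsSystem ρ P E L X Y Z l l') :
    (∀ n : ℕ, IsSpanned ρ (productOf X (productOf Y Z l') l) n ↔
      ∀ m : ℕ, m ≤ n → n ≤ m + dimension X l → IsSpanned ρ (productOf Y Z l') m) ∧
    ((∀ n, RankEquality ρ (productOf X (productOf Y Z l') l) n) ↔
      ∀ n, RankEquality ρ (productOf Y Z l') n) ∧
    (∀ i l₁, l = i :: l₁ → IsDetermined ρ (X i) (productOf X (productOf Y Z l') l₁)) :=
  main h l hsys

end Pool.Agent.Results.MP_90d181_ag.NoSupersingularParts
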